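import Mathlib
import Pool.Agent.N988.EA.Stm

/-!
# S_ANA: the bound for `q = 1 / n`, `25 ≤ n`
-/

open Finset
open Pool.Agent.N988.EA

namespace Pool.Agent.N189.EA

noncomputable section

/-- The weights. -/
def w (n k : ℕ) : ℝ := if k < n then 1 else 1 / 2

theorem FF_le {n k : ℕ} (hn : 1 ≤ n) (hk : k ≤ n) :
    FF (1 / (n : ℝ)) k = 1 - (1 - k / n) ^ 2 := by
  have hn0 : (0 : ℝ) < n := by exact_mod_cast hn
  have hk' : (k : ℝ) ≤ n := by exact_mod_cast hk
  have h1 : (k : ℝ) * (1 / n) = k / n := by ring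
  have h2 : (k : ℝ) / n ≤ 1 := by rw [div_le_one hn0]; exact hk'
  rw [FF, h1, max_eq_right (by linarith)]

theorem FF_ge {n : ℕ} (hn : 1 ≤ n) : FF (1 / (n : ℝ)) (n + 1) = 1 := by
  have hn0 : (0 : ℝ) < n := by exact_mod_cast hn
  have h2 : (1 : ℝ) ≤ ((n + 1 : ℕ) : ℝ) * (1 / n) := by
    push_cast
    rw [mul_one_div, le_div_iff₀ hn0]
    linarith
  rw [FF, max_eq_left (by linarith)]
  norm_num

theorem La_eq {n k : ℕ} (hn : 1 ≤ n) (hk1 : 1 ≤ k) (hk : k ≤ n) :
    La (1 / (n : ℝ)) k = 2 / (n : ℝ) ^ 2 * w n k := by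
  have hn0 : (n : ℝ) ≠ 0 := by
    have : 0 < n := hn
    positivity
  rcases lt_or_eq_of_le hk with h | h
  · rw [La, FF_le hn hk, FF_le hn (by omega : k - 1 ≤ n), FF_le hn (by omega : k + 1 ≤ n), w,
      if_pos h, Nat.cast_sub hk1]
    push_cast
    field_simp
    ring
  · subst h
    rw [La, FF_le hn le_rfl, FF_le hn (by omega : k - 1 ≤ k), FF_ge hn, w,
      if_neg (lt_irrefl _), Nat.cast_sub hk1]
    push_cast
    field_simp
    ring

theorem HH_succ (x k l : ℕ) : HH x (k + 1) (l + 1) = HH x k l + if x ≤ k + l + 1 then 1 else 0 := by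
  unfold HH
  split_ifs with h
  · omega
  · omega

theorem HH_zero_left (x l : ℕ) : HH x 0 l = 0 := by unfold HH; omega

theorem HH_zero_right (x k : ℕ) : HH x k 0 = 0 := by unfold HH; omega

theorem w_succ (n k : ℕ) : w (n + 1) (k + 1) = w n k := by
  unfold w
  simp

/-- The indicator. -/
def ii (x y : ℕ) : ℝ := if x ≤ y then 1 else 0

/-- The inner sum. -/
def G (n x : ℕ) : ℝ :=
  ∑ k ∈ range n, ∑ l ∈ range n, w n (k + 1) * w n (l + 1) * (HH x (k + 1) (l + 1) : ℝ)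

def Ps (n x : ℕ) : ℝ :=
  ∑ k ∈ range (n + 1), ∑ l ∈ range (n + 1), w n k * w n l * ii x (k + l + 1)

def B (n x : ℕ) : ℝ := ∑ k ∈ range n, ∑ l ∈ range n, ii x (k + l + 1)

def E (n x : ℕ) : ℝ := ∑ k ∈ range n, ii x (k + n + 1)

theorem G_succ (n x : ℕ) : G (n + 1) x = G n x + Ps n x := by
  have h1 : G (n + 1) x = ∑ k ∈ range (n + 1), ∑ l ∈ range (n + 1),
      (w n k * w n l * (HH x k l : ℝ) + w n k * w n l * ii x (k + l + 1)) := by
    unfold G
    refine sum_congr rfl fun k _ => sum_congr rfl fun l _ => ?_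
    rw [w_succ, w_succ, HH_succ, ii]
    push_cast
    ring
  rw [h1]
  simp_rw [sum_add_distrib]
  rw [Ps]
  congr 1
  rw [sum_range_succ']
  simp only [HH_zero_left, Nat.cast_zero, mul_zero, sum_const_zero, add_zero]
  unfold G
  refine sum_congr rfl fun k _ => ?_
  rw [sum_range_succ']
  simp only [HH_zero_right, Nat.cast_zero, mul_zero, add_zero]

theorem B_succ (n x : ℕ) : B (n + 1) x = B n x + 2 * E n x + ii x (2 * n + 1) := by
  unfold B E
  rw [sum_range_succ]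
  simp_rw [sum_range_succ]
  rw [sum_add_distrib]
  have h1 : ∑ l ∈ range n, ii x (n + l + 1) = ∑ k ∈ range n, ii x (k + n + 1) :=
    sum_congr rfl fun k _ => by rw [add_comm n k]
  rw [h1, show n + n + 1 = 2 * n + 1 by ring]
  ring

theorem Ps_eq (n x : ℕ) : Ps n x = B n x + E n x + ii x (2 * n + 1) / 4 := by
  have hw : ∀ k ∈ range n, w n k = 1 := fun k hk => by
    rw [w, if_pos (mem_range.1 hk)]
  have hn : w n n = 1 / 2 := by rw [w, if_neg (lt_irrefl _)]
  unfold Ps B E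
  rw [sum_range_succ]
  simp_rw [sum_range_succ]
  rw [sum_add_distrib, hn]
  have h1 : ∑ k ∈ range n, ∑ l ∈ range n, w n k * w n l * ii x (k + l + 1) =
      ∑ k ∈ range n, ∑ l ∈ range n, ii x (k + l + 1) :=
    sum_congr rfl fun k hk => sum_congr rfl fun l hl => by rw [hw k hk, hw l hl]; ring
  have h2 : ∑ k ∈ range n, w n k * (1 / 2) * ii x (k + n + 1) =
      (∑ k ∈ range n, ii x (k + n + 1)) / 2 := by
    rw [sum_div]
    exact sum_congr rfl fun k hk => by rw [hw k hk]; ring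
  have h3 : ∑ l ∈ range n, 1 / 2 * w n l * ii x (n + l + 1) =
      (∑ k ∈ range n, ii x (k + n + 1)) / 2 := by
    rw [sum_div]
    exact sum_congr rfl fun k hk => by rw [hw k hk, add_comm n k]; ring
  rw [h1, h2, h3, show n + n + 1 = 2 * n + 1 by ring]
  ring

theorem cnt (m s : ℕ) (h : s ≤ m) : ∑ k ∈ range m, ii s k = (m : ℝ) - s := by
  induction m, h using Nat.le_induction with
  | base =>
    rw [sub_self]
    refine sum_eq_zero fun k hk => ?_
    rw [ii, if_neg (by have := mem_range.1 hk; omega)]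
  | succ m hm ih =>
    rw [sum_range_succ, ih, ii, if_pos hm]
    push_cast
    ring

theorem E_small {n x : ℕ} (h : x ≤ n + 1) : E n x = n := by
  unfold E
  rw [sum_congr rfl fun k _ => show ii x (k + n + 1) = 1 by rw [ii, if_pos (by omega)]]
  simp

theorem E_mid {n x : ℕ} (h1 : n + 1 ≤ x) (h2 : x ≤ 2 * n + 1) : E n x = 2 * n + 1 - x := by
  obtain ⟨s, rfl⟩ := Nat.exists_eq_add_of_le h1
  have : ∀ k ∈ range n, ii (n + 1 + s) (k + n + 1) = ii s k := fun k _ => by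
    unfold ii
    congr 1
    exact propext ⟨fun h => by omega, fun h => by omega⟩
  unfold E
  rw [sum_congr rfl this, cnt n s (by omega)]
  push_cast
  ring

theorem E_big {n x : ℕ} (h : 2 * n + 1 ≤ x) : E n x = 0 := by
  unfold E
  refine sum_eq_zero fun k hk => ?_
  rw [ii, if_neg (by have := mem_range.1 hk; omega)]

theorem B_big {n x : ℕ} (h : 2 * n ≤ x) : B n x = 0 := by
  unfold B
  refine sum_eq_zero fun k hk => sum_eq_zero fun l hl => ?_
  rw [ii, if_neg (by have := mem_range.1 hk; have := mem_range.1 hl; omega)]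

theorem B_mid (n : ℕ) : ∀ x : ℕ, n ≤ x → x ≤ 2 * n + 1 →
    B n x = (2 * n - x) * (2 * n - x + 1) / 2 := by
  induction n with
  | zero =>
    intro x _ h2
    rw [B_big (by omega)]
    have : x = 0 ∨ x = 1 := by omega
    rcases this with rfl | rfl <;> norm_num
  | succ n ih =>
    intro x h1 h2
    rcases le_or_gt x (2 * n + 1) with h | h
    · rw [B_succ, ih x (by omega) h, E_mid h1 h, ii, if_pos h]
      push_cast
      ring
    · rw [B_big (by omega)]
      have : x = 2 * n + 2 ∨ x = 2 * n + 3 := by omega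
      rcases this with rfl | rfl
      · push_cast; ring
      · push_cast; ring

theorem B_small {n x : ℕ} (hx : 1 ≤ x) (h : x ≤ n + 1) :
    B n x = (n : ℝ) ^ 2 - x * (x - 1) / 2 := by
  obtain ⟨y, rfl⟩ := Nat.exists_eq_add_of_le' hx
  have hy : y ≤ n := by omega
  clear h hx
  induction n, hy using Nat.le_induction with
  | base =>
    rw [B_mid y (y + 1) (by omega) (by omega)]
    push_cast
    ring
  | succ n hn ih =>
    rw [B_succ, ih, E_small (by omega), ii, if_pos (by omega)]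
    push_cast
    ring

theorem G_big (n x : ℕ) (h : 2 * n ≤ x) : G n x = 0 := by
  induction n with
  | zero => simp [G]
  | succ n ih =>
    rw [G_succ, ih (by omega), Ps_eq, B_big (by omega), E_big (by omega), ii,
      if_neg (by omega)]
    ring

theorem G_mid (n : ℕ) : ∀ x : ℕ, n ≤ x → x ≤ 2 * n + 1 →
    G n x = (2 * n - x) * (2 * n - x + 1) * (2 * (2 * n - x) + 1) / 24 := by
  induction n with
  | zero =>
    intro x _ h2
    rw [G_big 0 x (by omega)]
    have : x = 0 ∨ x = 1 := by omega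
    rcases this with rfl | rfl <;> norm_num
  | succ n ih =>
    intro x h1 h2
    rcases le_or_gt x (2 * n + 1) with h | h
    · rw [G_succ, ih x (by omega) h, Ps_eq, B_mid n x (by omega) h, E_mid h1 h, ii, if_pos h]
      push_cast
      ring
    · rw [G_big _ x (by omega)]
      have : x = 2 * n + 2 ∨ x = 2 * n + 3 := by omega
      rcases this with rfl | rfl
      · push_cast; ring
      · push_cast; ring

/-- The inner sum for small `x`. -/
def A (n x : ℝ) : ℝ :=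
  n * (4 * n ^ 2 - 1) / 12 - n * x * (x - 1) / 2 + x * (x - 1) * (2 * x - 1) / 8

theorem G_small {n x : ℕ} (hx : 1 ≤ x) (h : x ≤ n) : G n x = A n x := by
  induction n, h using Nat.le_induction with
  | base =>
    rw [G_mid x x le_rfl (by omega), A]
    ring
  | succ n hn ih =>
    rw [G_succ, ih, Ps_eq, B_small hx (by omega), E_small (by omega), ii, if_pos (by omega), A, A]
    push_cast
    ring

theorem icc_range (f : ℕ → ℝ) (n : ℕ) : ∑ k ∈ Icc 1 n, f k = ∑ k ∈ range n, f (k + 1) := by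
  induction n with
  | zero => simp
  | succ n ih => rw [sum_Icc_succ_top (by omega), ih, sum_range_succ]

theorem inner {n : ℕ} (hn : 1 ≤ n) (x : ℕ) :
    ∑ k ∈ Icc 1 n, ∑ l ∈ Icc 1 n, La (1 / (n : ℝ)) k * La (1 / (n : ℝ)) l * (HH x k l : ℝ) =
      4 / (n : ℝ) ^ 4 * G n x := by
  rw [icc_range]
  unfold G
  rw [mul_sum]
  refine sum_congr rfl fun k hk => ?_
  rw [icc_range, mul_sum]
  refine sum_congr rfl fun l hl => ?_
  have := mem_range.1 hk
  have := mem_range.1 hl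
  rw [La_eq hn (by omega) (by omega), La_eq hn (by omega) (by omega)]
  ring

/-- The sum of the squares of `A n x`, `1 ≤ x ≤ m`. -/
def s1 (n m : ℝ) : ℝ :=
  -3 / 1120 * m + 1 / 80 * n ^ 2 * m + 1 / 18 * n ^ 4 * m + 1 / 9 * n ^ 6 * m -
    1 / 32 * n * m ^ 2 - 1 / 24 * n ^ 3 * m ^ 2 + 1 / 64 * m ^ 3 - 1 / 18 * n ^ 2 * m ^ 3 -
    1 / 9 * n ^ 4 * m ^ 3 + 7 / 96 * n * m ^ 4 + 1 / 24 * n ^ 3 * m ^ 4 - 7 / 320 * m ^ 5 +
    1 / 20 * n ^ 2 * m ^ 5 - 1 / 24 * n * m ^ 6 + 1 / 112 * m ^ 7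

def s2 (n : ℝ) : ℝ := -n / 3360 + n ^ 3 / 576 - 7 * n ^ 5 / 2880 + n ^ 7 / 1008

theorem sum1 (n : ℝ) (m : ℕ) : ∑ x ∈ range m, A n ((x + 1 : ℕ) : ℝ) ^ 2 = s1 n m := by
  induction m with
  | zero => simp [s1]
  | succ m ih =>
    rw [sum_range_succ, ih]
    unfold s1 A
    push_cast
    ring

theorem sum2 (n : ℝ) (m : ℕ) :
    ∑ x ∈ range m, ((n - 1 - x) * (n - 1 - x + 1) * (2 * (n - 1 - x) + 1) / 24) ^ 2 =
      s2 n - s2 (n - m) := by
  induction m with
  | zero => simp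
  | succ m ih =>
    rw [sum_range_succ, ih]
    unfold s2
    push_cast
    ring

theorem range_split (f : ℕ → ℝ) (n m : ℕ) :
    ∑ x ∈ range (n + m), f x = ∑ x ∈ range n, f x + ∑ x ∈ range m, f (n + x) :=
  sum_range_add f n m

theorem Phi_eq {n : ℕ} (hn : 1 ≤ n) : Phi n (1 / (n : ℝ)) =
    16 / (n : ℝ) ^ 8 * (s1 n n + s2 n) := by
  have h1 : Phi n (1 / (n : ℝ)) = ∑ x ∈ Icc 1 (2 * n), (4 / (n : ℝ) ^ 4 * G n x) ^ 2 := by
    unfold Phi
    refine sum_congr rfl fun x _ => ?_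
    rw [inner hn x]
  rw [h1, icc_range, two_mul, range_split]
  have h2 : ∑ x ∈ range n, (4 / (n : ℝ) ^ 4 * G n (x + 1)) ^ 2 =
      16 / (n : ℝ) ^ 8 * ∑ x ∈ range n, A n ((x + 1 : ℕ) : ℝ) ^ 2 := by
    rw [mul_sum]
    refine sum_congr rfl fun x hx => ?_
    have := mem_range.1 hx
    rw [G_small (by omega) (by omega)]
    ring
  have h3 : ∑ x ∈ range n, (4 / (n : ℝ) ^ 4 * G n (n + x + 1)) ^ 2 =
      16 / (n : ℝ) ^ 8 *
        ∑ x ∈ range n, (((n : ℝ) - 1 - x) * (n - 1 - x + 1) * (2 * (n - 1 - x) + 1) / 24) ^ 2 := by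
    rw [mul_sum]
    refine sum_congr rfl fun x hx => ?_
    have := mem_range.1 hx
    rw [G_mid n (n + x + 1) (by omega) (by omega)]
    push_cast
    ring
  rw [h2, h3, sum1, sum2, sub_self]
  have : s2 0 = 0 := by simp [s2]
  rw [this]
  ring

/-- The bound for `q = 1 / n`. -/
theorem t_ANA : S_ANA := by
  intro n hn
  rw [Phi_eq (by omega)]
  obtain ⟨s, rfl⟩ := Nat.exists_eq_add_of_le hn
  have hs : (0 : ℝ) ≤ s := Nat.cast_nonneg s
  have hpos : (0 : ℝ) < (((25 + s : ℕ) : ℝ)) ^ 8 := by positivity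
  have key : (((25 + s : ℕ) : ℝ) + 1) * (16 * (s1 ((25 + s : ℕ) : ℝ) ((25 + s : ℕ) : ℝ) +
      s2 ((25 + s : ℕ) : ℝ))) ≤ 998 / 1000 * (((25 + s : ℕ) : ℝ)) ^ 8 := by
    unfold s1 s2
    push_cast
    rw [← sub_nonneg]
    ring_nf
    positivity
  calc _ = (((25 + s : ℕ) : ℝ) + 1) * (16 * (s1 ((25 + s : ℕ) : ℝ) ((25 + s : ℕ) : ℝ) +
      s2 ((25 + s : ℕ) : ℝ))) / (((25 + s : ℕ) : ℝ)) ^ 8 := by ring
    _ ≤ 998 / 1000 := by
      rw [div_le_iff₀ hpos]
      exact key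

end

end Pool.Agent.N189.EA
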