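import Pool.Agent.N979.P1.DatB

/-!
# Orientable fillings of the circle: the numerical value, second data set
(PROJECT P1, leaf P1B/VALN, helper189; adapted from the file of helper134)
-/

set_option autoImplicit false

namespace Pool.Agent.N189.P1BVALN

open Pool.Agent.N979.P1 Pool.Agent.N979.P1.B

/-- lower bounds of the numbers `√(1 + t_i²)` -/
def lo : Fin 27 → ℚ := ![100000000256327999671/100000000000000000000, 100000016359198661883/100000000000000000000,
  50000093122413282161/50000000000000000000, 100001048814499940723/100000000000000000000,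
  100003996100155917719/100000000000000000000, 100012011778585876019/100000000000000000000,
  100030007997600400071/100000000000000000000, 50033660919425034613/50000000000000000000,
  20027229863363530087/20000000000000000000, 100256714987077050149/100000000000000000000,
  25113744369368738161/25000000000000000000, 50382933618438694483/50000000000000000000,
  101256160306422838403/100000000000000000000, 50980412905350227263/50000000000000000000,
  51490678768103261429/50000000000000000000, 104460710317324570641/100000000000000000000,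
  53260890905053400167/50000000000000000000, 109373168556095146163/100000000000000000000,
  113364721143749125353/100000000000000000000, 11894267526838296233/10000000000000000000,
  126822710899901520753/100000000000000000000, 69103473139922569307/50000000000000000000,
  77719045284923566153/50000000000000000000, 90972523324353271453/50000000000000000000,
  228989082709198169319/100000000000000000000, 12991135439213925769/4000000000000000000,
  618142378421023646289/100000000000000000000]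

/-- upper bounds of the numbers `√(1 + t_i²)` -/
def hi : Fin 27 → ℚ := ![12500000032040999959/12500000000000000000, 25000004089799665471/25000000000000000000,
  100000186244826564323/100000000000000000000, 25000262203624985181/25000000000000000000,
  2500099902503897943/2500000000000000000, 5000600588929293801/5000000000000000000,
  12503750999700050009/12500000000000000000, 100067321838850069227/100000000000000000000,
  25034037329204412609/25000000000000000000, 2005134299741541003/2000000000000000000,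
  20090995495494990529/20000000000000000000, 100765867236877388967/100000000000000000000,
  25314040076605709601/25000000000000000000, 101960825810700454527/100000000000000000000,
  102981357536206522859/100000000000000000000, 52230355158662285321/50000000000000000000,
  21304356362021360067/20000000000000000000, 27343292139023786541/25000000000000000000,
  56682360571874562677/50000000000000000000, 118942675268382962331/100000000000000000000,
  63411355449950760377/50000000000000000000, 27641389255969027723/20000000000000000000,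
  155438090569847132307/100000000000000000000, 181945046648706542907/100000000000000000000,
  5724727067729954233/2500000000000000000, 162389192990174072113/50000000000000000000,
  61814237842102364629/10000000000000000000]

/-- the sums of the columns -/
def aC {N L : ℕ} (D : DatQ N L) (i : Fin L) : ℚ := ∑ j, D.m j i

/-- the weighted sums of the columns -/
def bC {N L : ℕ} (D : DatQ N L) (i : Fin L) : ℚ := ∑ j, D.ρ j * D.m j i

/-- the lower bound of the coefficient of `2 / π` -/
def Pl {N L : ℕ} (D : DatQ N L) (l h : Fin L → ℚ) : ℚ :=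
  D.ka + ∑ j, D.m0 j + ∑ i, (aC D i * (1 + D.t i) - max (aC D i * l i) (aC D i * h i))

/-- the upper bound of the constant coefficient -/
def Qh {N L : ℕ} (D : DatQ N L) (l h : Fin L → ℚ) : ℚ :=
  ∑ j, D.ρ j * D.m0 j + ∑ i, (bC D i * (1 + D.t i) - min (bC D i * l i) (bC D i * h i))

lemma mul_le_max (a s l h : ℝ) (h1 : l ≤ s) (h2 : s ≤ h) : a * s ≤ max (a * l) (a * h) := by
  rcases le_total 0 a with ha | ha
  · exact le_max_of_le_right (mul_le_mul_of_nonneg_left h2 ha)
  · exact le_max_of_le_left (mul_le_mul_of_nonpos_left h1 ha)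

lemma min_le_mul (a s l h : ℝ) (h1 : l ≤ s) (h2 : s ≤ h) : min (a * l) (a * h) ≤ a * s := by
  rcases le_total 0 a with ha | ha
  · exact min_le_of_left_le (mul_le_mul_of_nonneg_left h1 ha)
  · exact min_le_of_right_le (mul_le_mul_of_nonpos_left h2 ha)

lemma g_eq (t : ℝ) : 1 - (√(1 + t ^ 2))⁻¹ + (t - t ^ 2 * (√(1 + t ^ 2))⁻¹) =
    1 + t - √(1 + t ^ 2) := by
  have hp : (0 : ℝ) < 1 + t ^ 2 := by positivity
  have hs : √(1 + t ^ 2) * √(1 + t ^ 2) = 1 + t ^ 2 := Real.mul_self_sqrt hp.le
  have hs0 : √(1 + t ^ 2) ≠ 0 := (Real.sqrt_pos.2 hp).ne'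
  field_simp
  nlinarith [hs]

lemma val_eq {N L : ℕ} (D : DatQ N L) : ValE D.toDat =
    4 * (2 / Real.pi * ((D.ka : ℝ) + ∑ j, (D.m0 j : ℝ) + ∑ i, ((aC D i : ℚ) : ℝ) *
      (1 + (D.t i : ℝ) - √(1 + (D.t i : ℝ) ^ 2))) -
      (∑ j, (D.ρ j : ℝ) * (D.m0 j : ℝ) + ∑ i, ((bC D i : ℚ) : ℝ) *
      (1 + (D.t i : ℝ) - √(1 + (D.t i : ℝ) ^ 2)))) := by
  unfold ValE
  simp only [g_eq]
  simp only [DatQ.toDat, aC, bC]
  push_cast
  simp only [Finset.sum_mul]
  rw [Finset.sum_comm (γ := Fin L), Finset.sum_comm (γ := Fin L) (f := fun x y => (D.ρ y : ℝ) * (D.m y x : ℝ) *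
    (1 + (D.t x : ℝ) - √(1 + (D.t x : ℝ) ^ 2)))]
  simp only [mul_add, mul_sub, sub_mul, Finset.mul_sum, Finset.sum_add_distrib,
    Finset.sum_sub_distrib]
  ring_nf

lemma Pl_le {N L : ℕ} (D : DatQ N L) (l h : Fin L → ℚ)
    (hs : ∀ i, (l i : ℝ) ≤ √(1 + (D.t i : ℝ) ^ 2) ∧ √(1 + (D.t i : ℝ) ^ 2) ≤ (h i : ℝ)) :
    ((Pl D l h : ℚ) : ℝ) ≤ (D.ka : ℝ) + ∑ j, (D.m0 j : ℝ) + ∑ i, ((aC D i : ℚ) : ℝ) *
      (1 + (D.t i : ℝ) - √(1 + (D.t i : ℝ) ^ 2)) := by
  unfold Pl
  push_cast
  gcongr with i hi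
  have := mul_le_max ((aC D i : ℚ) : ℝ) _ _ _ (hs i).1 (hs i).2
  linarith

lemma le_Qh {N L : ℕ} (D : DatQ N L) (l h : Fin L → ℚ)
    (hs : ∀ i, (l i : ℝ) ≤ √(1 + (D.t i : ℝ) ^ 2) ∧ √(1 + (D.t i : ℝ) ^ 2) ≤ (h i : ℝ)) :
    (∑ j, (D.ρ j : ℝ) * (D.m0 j : ℝ) + ∑ i, ((bC D i : ℚ) : ℝ) *
      (1 + (D.t i : ℝ) - √(1 + (D.t i : ℝ) ^ 2))) ≤ ((Qh D l h : ℚ) : ℝ) := by
  unfold Qh
  push_cast
  gcongr with i hi
  have := min_le_mul ((bC D i : ℚ) : ℝ) _ _ _ (hs i).1 (hs i).2
  linarith

lemma sq_bd : ∀ i : Fin 27, 0 ≤ lo i ∧ 0 ≤ hi i ∧ lo i ^ 2 ≤ 1 + datQ.t i ^ 2 ∧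
    1 + datQ.t i ^ 2 ≤ hi i ^ 2 := by
  decide +kernel

lemma sq_bd' (i : Fin 27) : (lo i : ℝ) ≤ √(1 + (datQ.t i : ℝ) ^ 2) ∧
    √(1 + (datQ.t i : ℝ) ^ 2) ≤ (hi i : ℝ) := by
  obtain ⟨h1, h2, h3, h4⟩ := sq_bd i
  have h1' : (0 : ℝ) ≤ (lo i : ℝ) := by exact_mod_cast h1
  have h2' : (0 : ℝ) ≤ (hi i : ℝ) := by exact_mod_cast h2
  have h3' : (lo i : ℝ) ^ 2 ≤ 1 + (datQ.t i : ℝ) ^ 2 := by exact_mod_cast h3
  have h4' : 1 + (datQ.t i : ℝ) ^ 2 ≤ (hi i : ℝ) ^ 2 := by exact_mod_cast h4
  exact ⟨Real.le_sqrt_of_sq_le h3', Real.sqrt_le_iff.2 ⟨h2', h4'⟩⟩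

lemma fin_chk : 0 ≤ Pl datQ lo hi ∧ 196 / 100 * (3141593 / 1000000) ≤
    4 * (2 / (3141593 / 1000000) * Pl datQ lo hi - Qh datQ lo hi) := by
  decide +kernel

lemma rho_chk : ∀ j, datQ.ρ j ≤ 6363 / 10000 := by
  decide +kernel

/-- VALN -/
theorem main : S_VALN := by
  have hpi : Real.pi < 3141593 / 1000000 := by
    have := Real.pi_lt_d6
    norm_num at this ⊢
    exact this
  have hp : 0 < Real.pi := Real.pi_pos
  refine ⟨?_, ?_⟩
  · intro j
    have h1 : (datQ.toDat.ρ j : ℝ) ≤ 6363 / 10000 := by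
      have := rho_chk j
      show ((datQ.ρ j : ℚ) : ℝ) ≤ 6363 / 10000
      have h2 : ((datQ.ρ j : ℚ) : ℝ) ≤ ((6363 / 10000 : ℚ) : ℝ) := by exact_mod_cast this
      push_cast at h2
      exact h2
    refine h1.trans ?_
    rw [le_div_iff₀ hp]
    linarith
  · rw [val_eq]
    have hP := Pl_le datQ lo hi sq_bd'
    have hQ := le_Qh datQ lo hi sq_bd'
    obtain ⟨h0, h1⟩ := fin_chk
    have h0' : (0 : ℝ) ≤ ((Pl datQ lo hi : ℚ) : ℝ) := by exact_mod_cast h0
    have h1' : 196 / 100 * (3141593 / 1000000 : ℝ) ≤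
        4 * (2 / (3141593 / 1000000) * ((Pl datQ lo hi : ℚ) : ℝ) - ((Qh datQ lo hi : ℚ) : ℝ)) := by
      have h2 := (Rat.cast_le (K := ℝ)).2 h1
      push_cast at h2
      exact h2
    have hZ : 2 / (3141593 / 1000000 : ℝ) ≤ 2 / Real.pi :=
      div_le_div_of_nonneg_left (by norm_num) hp hpi.le
    have hZ0 : 0 ≤ 2 / Real.pi := by positivity
    have h3 : 2 / (3141593 / 1000000 : ℝ) * ((Pl datQ lo hi : ℚ) : ℝ) ≤
        2 / Real.pi * ((datQ.ka : ℝ) + ∑ j, (datQ.m0 j : ℝ) + ∑ i, ((aC datQ i : ℚ) : ℝ) *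
          (1 + (datQ.t i : ℝ) - √(1 + (datQ.t i : ℝ) ^ 2))) :=
      (mul_le_mul_of_nonneg_right hZ h0').trans (mul_le_mul_of_nonneg_left hP hZ0)
    linarith

end Pool.Agent.N189.P1BVALN

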